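import Pool.Agent.helper5.LDH.Spec

set_option autoImplicit false

open Complex MeasureTheory

namespace Pool.Agent.LDH

open Pool.Agent.helper84.DM Pool.Agent.helper78.ED Pool.Agent.DH

theorem KL_norm (x : ℝ) : ‖ee x‖ = 1 := by
  unfold ee
  exact Complex.norm_exp_ofReal_mul_I _

theorem KL_add (x y : ℝ) : ee (x + y) = ee x * ee y := by
  unfold ee
  rw [← Complex.exp_add]
  congr 1
  push_cast
  ring

theorem KL_int (m : ℤ) : ee m = 1 := by
  unfold ee
  rw [Complex.exp_eq_one_iff]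
  refine ⟨m, ?_⟩
  push_cast
  ring

theorem KL_neg (x : ℝ) : ee (-x) = (starRingEnd ℂ) (ee x) := by
  unfold ee
  rw [← Complex.exp_conj]
  congr 1
  rw [map_mul, Complex.conj_I, Complex.conj_ofReal]
  push_cast
  ring

/-- the cotangent of `π x` -/
noncomputable def KL_c (x : ℝ) : ℝ := Real.cos (Real.pi * x) / Real.sin (Real.pi * x)

theorem KL_sin {l x : ℝ} (hl : 0 < l) (h1 : l ≤ x) (h2 : x ≤ 1 - l) : 2 * l ≤ Real.sin (Real.pi * x) := by
  have hpi := Real.pi_pos
  rcases le_total x (1 / 2) with h | h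
  · have h3 := Real.mul_le_sin (x := Real.pi * x) (mul_nonneg hpi.le (hl.le.trans h1)) (by nlinarith)
    have h4 : 2 / Real.pi * (Real.pi * x) = 2 * x := by field_simp
    rw [h4] at h3
    linarith
  · have h3 := Real.mul_le_sin (x := Real.pi * (1 - x)) (by
      apply mul_nonneg hpi.le
      linarith) (by nlinarith)
    have h4 : 2 / Real.pi * (Real.pi * (1 - x)) = 2 * (1 - x) := by field_simp
    have h5 : Real.sin (Real.pi * (1 - x)) = Real.sin (Real.pi * x) := by
      have e : Real.pi * (1 - x) = Real.pi - Real.pi * x := by ring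
      rw [e, Real.sin_pi_sub]
    rw [h4, h5] at h3
    linarith

theorem KL_c_bd {l x : ℝ} (hl : 0 < l) (h1 : l ≤ x) (h2 : x ≤ 1 - l) : |KL_c x| ≤ 1 / (2 * l) := by
  have h3 := KL_sin hl h1 h2
  have h4 : 0 < Real.sin (Real.pi * x) := by linarith
  unfold KL_c
  rw [abs_div, abs_of_pos h4]
  exact div_le_div₀ zero_le_one (Real.abs_cos_le_one _) (by linarith) h3

theorem KL_c_mono {l x y : ℝ} (hl : 0 < l) (h1 : l ≤ x) (h2 : y ≤ 1 - l) (hxy : x ≤ y) : KL_c y ≤ KL_c x := by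
  have hpi := Real.pi_pos
  have hx : 0 < Real.sin (Real.pi * x) := by
    have := KL_sin hl h1 (hxy.trans h2)
    linarith
  have hy : 0 < Real.sin (Real.pi * y) := by
    have := KL_sin hl (h1.trans hxy) h2
    linarith
  unfold KL_c
  rw [div_le_div_iff₀ hy hx]
  have h3 : 0 ≤ Real.sin (Real.pi * (y - x)) := by
    apply Real.sin_nonneg_of_nonneg_of_le_pi
    · apply mul_nonneg hpi.le
      linarith
    · nlinarith
  have h4 : Real.sin (Real.pi * (y - x)) = Real.sin (Real.pi * y) * Real.cos (Real.pi * x) -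
      Real.cos (Real.pi * y) * Real.sin (Real.pi * x) := by
    rw [mul_sub, Real.sin_sub]
  linarith

/-- `1 / (1 - ee x)` -/
noncomputable def KL_C (x : ℝ) : ℂ := (1 + I * (KL_c x : ℝ)) / 2

theorem KL_ee (x : ℝ) : ee x = ((Real.cos (Real.pi * x) ^ 2 - Real.sin (Real.pi * x) ^ 2 : ℝ) : ℂ) +
    ((2 * Real.sin (Real.pi * x) * Real.cos (Real.pi * x) : ℝ) : ℂ) * I := by
  unfold ee
  rw [Complex.exp_mul_I, ← Complex.ofReal_cos, ← Complex.ofReal_sin]
  have e : 2 * Real.pi * x = 2 * (Real.pi * x) := by ring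
  rw [e, Real.cos_two_mul', Real.sin_two_mul]

theorem KL_C_mul {l x : ℝ} (hl : 0 < l) (h1 : l ≤ x) (h2 : x ≤ 1 - l) : (1 - ee x) * KL_C x = 1 := by
  have h3 := KL_sin hl h1 h2
  have h4 : Real.sin (Real.pi * x) ≠ 0 := by
    have : 0 < Real.sin (Real.pi * x) := by linarith
    exact this.ne'
  rw [KL_ee, KL_C, KL_c]
  have h6 := Real.sin_sq_add_cos_sq (Real.pi * x)
  set s := Real.sin (Real.pi * x)
  set c := Real.cos (Real.pi * x)
  have h5 : (s : ℂ) ≠ 0 := by exact_mod_cast h4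
  have h7 : (s : ℂ) ^ 2 + (c : ℂ) ^ 2 = 1 := by exact_mod_cast h6
  push_cast
  field_simp
  have hI : I ^ 2 = -1 := I_sq
  linear_combination ((s : ℂ) - c * I) * h7 - 2 * (c : ℂ) ^ 2 * s * hI

theorem KL_C_norm {l x : ℝ} (hl : 0 < l) (hl2 : l ≤ 1 / 2) (h1 : l ≤ x) (h2 : x ≤ 1 - l) :
    ‖KL_C x‖ ≤ 1 / (2 * l) ∧ ‖1 - KL_C x‖ ≤ 1 / (2 * l) := by
  have hb := KL_c_bd hl h1 h2
  have h3 : 1 ≤ 1 / (2 * l) := by
    rw [le_div_iff₀ (by linarith)]
    linarith
  have hI : ‖I * ((KL_c x : ℝ) : ℂ)‖ ≤ 1 / (2 * l) := by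
    rw [norm_mul, Complex.norm_I, one_mul, Complex.norm_real]
    exact hb
  have h1' : ‖(1 : ℂ)‖ ≤ 1 / (2 * l) := by
    rw [norm_one]
    exact h3
  constructor
  · unfold KL_C
    rw [norm_div, Complex.norm_ofNat, div_le_iff₀ (by norm_num)]
    have := norm_add_le (1 : ℂ) (I * ((KL_c x : ℝ) : ℂ))
    linarith
  · have e : 1 - KL_C x = (1 - I * ((KL_c x : ℝ) : ℂ)) / 2 := by
      unfold KL_C
      ring
    rw [e, norm_div, Complex.norm_ofNat, div_le_iff₀ (by norm_num)]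
    have := norm_sub_le (1 : ℂ) (I * ((KL_c x : ℝ) : ℂ))
    linarith

theorem KL_C_sub (x y : ℝ) (h : KL_c y ≤ KL_c x) : ‖KL_C y - KL_C x‖ = (KL_c x - KL_c y) / 2 := by
  have e : KL_C y - KL_C x = I * (((KL_c y - KL_c x) / 2 : ℝ) : ℂ) := by
    unfold KL_C
    push_cast
    ring
  rw [e, norm_mul, Complex.norm_I, one_mul, Complex.norm_real, Real.norm_eq_abs, abs_of_nonpos (by linarith)]
  ring

theorem KL_abel (e C : ℕ → ℂ) (M : ℕ) : ∑ k ∈ Finset.range (M + 1), (e k - e (k + 1)) * C k =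
    e 0 * C 0 - e (M + 1) * C M + ∑ k ∈ Finset.range M, e (k + 1) * (C (k + 1) - C k) := by
  induction M with
  | zero => simp; ring
  | succ M ih =>
    rw [Finset.sum_range_succ, ih, Finset.sum_range_succ _ M]
    ring

theorem KL_core (F : ℕ → ℝ) (M : ℕ) (l : ℝ) (hl : 0 < l) (hl2 : l ≤ 1 / 2)
    (hG : ∀ k, k ≤ M → l ≤ F (k + 1) - F k ∧ F (k + 1) - F k ≤ 1 - l)
    (hm : ∀ k, k < M → F (k + 1) - F k ≤ F (k + 2) - F (k + 1)) :
    ‖∑ k ∈ Finset.range (M + 2), ee (F k)‖ ≤ 2 / l := by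
  set g : ℕ → ℝ := fun k => F (k + 1) - F k with hg
  set C : ℕ → ℂ := fun k => KL_C (g k) with hC
  have hsum : ∑ k ∈ Finset.range (M + 1), ee (F k) = ∑ k ∈ Finset.range (M + 1), (ee (F k) - ee (F (k + 1))) * C k := by
    refine Finset.sum_congr rfl fun k hk => ?_
    obtain ⟨h1, h2⟩ := hG k (Nat.lt_succ_iff.1 (Finset.mem_range.1 hk))
    have h3 : F (k + 1) = F k + g k := by
      rw [hg]
      ring
    have h4 := KL_C_mul hl h1 h2
    have h5 : ee (F k) - ee (F (k + 1)) = ee (F k) * (1 - ee (g k)) := by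
      rw [h3, KL_add]
      ring
    rw [h5, mul_assoc]
    change ee (F k) = ee (F k) * ((1 - ee (F (k + 1) - F k)) * KL_C (F (k + 1) - F k))
    rw [h4, mul_one]
  have htot : ∑ k ∈ Finset.range (M + 2), ee (F k) = ee (F 0) * C 0 + ee (F (M + 1)) * (1 - C M) +
      ∑ k ∈ Finset.range M, ee (F (k + 1)) * (C (k + 1) - C k) := by
    rw [Finset.sum_range_succ, hsum, KL_abel (fun k => ee (F k)) C M]
    ring
  have hvar : ‖∑ k ∈ Finset.range M, ee (F (k + 1)) * (C (k + 1) - C k)‖ ≤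
      (KL_c (g 0) - KL_c (g M)) / 2 := by
    refine (norm_sum_le _ _).trans ?_
    have h1 : ∀ k ∈ Finset.range M, ‖ee (F (k + 1)) * (C (k + 1) - C k)‖ = -(KL_c (g (k + 1)) / 2) - -(KL_c (g k) / 2) := by
      intro k hk
      have hk' := Finset.mem_range.1 hk
      rw [norm_mul, KL_norm, one_mul]
      rw [hC]
      rw [KL_C_sub (g k) (g (k + 1)) (KL_c_mono hl (hG k hk'.le).1 (hG (k + 1) hk').2 (hm k hk'))]
      ring
    rw [Finset.sum_congr rfl h1, Finset.sum_range_sub (fun k => -(KL_c (g k) / 2))]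
    apply le_of_eq
    ring
  have h0 := hG 0 (Nat.zero_le _)
  have hM := hG M le_rfl
  have b1 := (abs_le.1 (KL_c_bd hl h0.1 h0.2)).2
  have b2 := (abs_le.1 (KL_c_bd hl hM.1 hM.2)).1
  have n1 := (KL_C_norm hl hl2 h0.1 h0.2).1
  have n2 := (KL_C_norm hl hl2 hM.1 hM.2).2
  rw [htot]
  have t1 := norm_add_le (ee (F 0) * C 0 + ee (F (M + 1)) * (1 - C M))
    (∑ k ∈ Finset.range M, ee (F (k + 1)) * (C (k + 1) - C k))
  have t2 := norm_add_le (ee (F 0) * C 0) (ee (F (M + 1)) * (1 - C M))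
  rw [norm_mul, norm_mul, KL_norm, KL_norm, one_mul, one_mul] at t2
  have hfin : 1 / (2 * l) + 1 / (2 * l) + 1 / (2 * l) ≤ 2 / l := by
    have e : 1 / (2 * l) + 1 / (2 * l) + 1 / (2 * l) = (3 / 2) / l := by
      field_simp
      ring
    rw [e]
    exact div_le_div_of_nonneg_right (by norm_num) hl.le
  have b3 : KL_c (g 0) ≤ 1 / (2 * l) := b1
  have b4 : -(1 / (2 * l)) ≤ KL_c (g M) := b2
  have n3 : ‖C 0‖ ≤ 1 / (2 * l) := n1
  have n4 : ‖1 - C M‖ ≤ 1 / (2 * l) := n2
  linarith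

theorem KL_inc (f : ℕ → ℝ) (a b : ℕ) (l : ℝ) (m : ℤ) (hl : 0 < l) (hl2 : l ≤ 1 / 2)
    (hf : ∀ n, a < n → n < b → (m : ℝ) + l ≤ f (n + 1) - f n ∧ f (n + 1) - f n ≤ m + 1 - l)
    (hm : ∀ n, a < n → n + 1 < b → f (n + 1) - f n ≤ f (n + 2) - f (n + 1)) :
    ‖∑ n ∈ Finset.Ioc a b, ee (f n)‖ ≤ 2 / l := by
  have h2l : 1 ≤ 2 / l := by
    rw [le_div_iff₀ hl]
    linarith
  rcases le_or_gt b (a + 1) with hb | hb
  · refine (norm_sum_le _ _).trans ?_
    rw [Finset.sum_congr rfl fun n _ => KL_norm (f n), Finset.sum_const, Nat.card_Ioc, nsmul_eq_mul, mul_one]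
    have h3 : ((b - a : ℕ) : ℝ) ≤ 1 := by
      exact_mod_cast (by omega : b - a ≤ 1)
    exact h3.trans h2l
  · obtain ⟨M, rfl⟩ : ∃ M, b = a + (M + 2) := ⟨b - a - 2, by omega⟩
    set F : ℕ → ℝ := fun k => f (a + 1 + k) - (m : ℝ) * k with hF
    have h1 : ‖∑ k ∈ Finset.range (M + 2), ee (F k)‖ ≤ 2 / l := by
      apply KL_core F M l hl hl2
      · intro k hk
        obtain ⟨h3, h4⟩ := hf (a + 1 + k) (by omega) (by omega)
        have e : F (k + 1) - F k = f (a + 1 + k + 1) - f (a + 1 + k) - m := by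
          rw [hF]
          push_cast
          rw [← add_assoc]
          ring
        rw [e]
        constructor
        · linarith
        · linarith
      · intro k hk
        have h3 := hm (a + 1 + k) (by omega) (by omega)
        have e : F (k + 1) - F k = f (a + 1 + k + 1) - f (a + 1 + k) - m := by
          rw [hF]
          push_cast
          rw [← add_assoc]
          ring
        have e' : F (k + 2) - F (k + 1) = f (a + 1 + k + 2) - f (a + 1 + k + 1) - m := by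
          rw [hF]
          push_cast
          rw [← add_assoc, ← add_assoc]
          ring
        rw [e, e']
        linarith
    have h2 : ∑ n ∈ Finset.Ioc a (a + (M + 2)), ee (f n) = ∑ k ∈ Finset.range (M + 2), ee (F k) := by
      have e1 : Finset.Ioc a (a + (M + 2)) = Finset.Ico (a + 1) (a + 1 + (M + 2)) := by
        ext n
        simp only [Finset.mem_Ioc, Finset.mem_Ico]
        omega
      rw [e1, Finset.sum_Ico_eq_sum_range]
      have e2 : a + 1 + (M + 2) - (a + 1) = M + 2 := by omega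
      rw [e2]
      refine Finset.sum_congr rfl fun k _ => ?_
      have e3 : f (a + 1 + k) = F k + ((m * k : ℤ) : ℝ) := by
        rw [hF]
        push_cast
        ring
      rw [e3, KL_add, KL_int, mul_one]
    rw [h2]
    exact h1

theorem KL : KL_stmt := by
  intro f a b l m hl hl2 hf hm
  rcases hm with hm | hm
  · exact KL_inc f a b l m hl hl2 hf hm
  · have h1 := KL_inc (fun n => -f n) a b l (-m - 1) hl hl2 (by
      intro n h1 h2
      obtain ⟨h3, h4⟩ := hf n h1 h2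
      push_cast
      constructor
      · linarith
      · linarith) (by
      intro n h1 h2
      have h3 := hm n h1 h2
      linarith)
    have h2 : ∑ n ∈ Finset.Ioc a b, ee (-f n) = (starRingEnd ℂ) (∑ n ∈ Finset.Ioc a b, ee (f n)) := by
      rw [map_sum]
      exact Finset.sum_congr rfl fun n _ => KL_neg _
    rw [h2, Complex.norm_conj] at h1
    exact h1

end Pool.Agent.LDH
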